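import Mathlib

/-!
# One step of the 2-adic descent, with coefficients in a finite abelian group of odd order
-/

set_option autoImplicit false

open scoped BigOperators

namespace Pool.Agent.U152.IN

variable {Q : Type} [CommGroup Q] [Fintype Q]

/-- `F` is obtained from `f` like the numbers of the characters of `G ≀ C₂` with given classes of degrees
are obtained from those of `G`; `w` is the class of `2`. -/
def Rel (w : Q) (f F : Q → ℤ) : Prop :=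
  ∀ c e : Q, e ^ 2 = w * c ^ 2 →
    2 * F (w * c ^ 2) = ∑ a, f a * f (a⁻¹ * c ^ 2) - f c + 4 * f e

theorem sq_surj (hodd : Odd (Nat.card Q)) (x : Q) : ∃ e : Q, e ^ 2 = x := by
  obtain ⟨k, hk⟩ := hodd
  refine ⟨x ^ (k + 1), ?_⟩
  rw [← pow_mul, show (k + 1) * 2 = (2 * k + 1) + 1 by ring, pow_succ, ← hk, pow_card_eq_one',
    one_mul]

theorem sq_inj (hodd : Odd (Nat.card Q)) {x y : Q} (h : x ^ 2 = y ^ 2) : x = y := by
  obtain ⟨k, hk⟩ := hodd
  have key : ∀ z : Q, z = (z ^ 2) ^ (k + 1) := by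
    intro z
    rw [← pow_mul, show 2 * (k + 1) = (2 * k + 1) + 1 by ring, pow_succ, ← hk, pow_card_eq_one',
      one_mul]
  rw [key x, key y, h]

/-- the descent step -/
theorem step (hodd : Odd (Nat.card Q)) {w : Q} {f g F G : Q → ℤ} (hF : Rel w f F) (hG : Rel w g G)
    {a : ℕ} (h : ∀ c, (2 : ℤ) ^ (a + 1) ∣ f c - g c) (H : ∀ c, (2 : ℤ) ^ (a + 1) ∣ F c - G c)
    (c : Q) : (2 : ℤ) ^ (a + 2) ∣ f c - g c := by
  obtain ⟨e, he⟩ := sq_surj hodd (w * c ^ 2)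
  have h1 := hF c e he
  have h2 := hG c e he
  choose d hd using h
  obtain ⟨t, ht⟩ := H (w * c ^ 2)
  have hf : ∀ x, f x = g x + 2 ^ (a + 1) * d x := fun x => by rw [← hd x]; ring
  have hsym : ∑ x, g x * d (x⁻¹ * c ^ 2) = ∑ x, d x * g (x⁻¹ * c ^ 2) := by
    refine Fintype.sum_bijective (fun x : Q => x⁻¹ * c ^ 2) ?_ _ _ ?_
    · exact Function.Involutive.bijective fun x => by
        rw [mul_inv, inv_inv, mul_assoc, inv_mul_cancel, mul_one]
    · intro x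
      rw [mul_inv, inv_inv, mul_assoc, inv_mul_cancel, mul_one, mul_comm]
  have hsum : ∑ x, f x * f (x⁻¹ * c ^ 2) = ∑ x, g x * g (x⁻¹ * c ^ 2) +
      2 ^ (a + 2) * ∑ x, d x * g (x⁻¹ * c ^ 2) +
      2 ^ (a + 2) * (2 ^ a * ∑ x, d x * d (x⁻¹ * c ^ 2)) := by
    have e1 : ∀ x, f x * f (x⁻¹ * c ^ 2) = g x * g (x⁻¹ * c ^ 2) +
        2 ^ (a + 1) * (g x * d (x⁻¹ * c ^ 2)) + 2 ^ (a + 1) * (d x * g (x⁻¹ * c ^ 2)) +
        2 ^ (a + 2) * (2 ^ a * (d x * d (x⁻¹ * c ^ 2))) := by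
      intro x
      rw [hf x, hf (x⁻¹ * c ^ 2)]
      ring
    rw [Finset.sum_congr rfl fun x _ => e1 x, Finset.sum_add_distrib, Finset.sum_add_distrib,
      Finset.sum_add_distrib, ← Finset.mul_sum, ← Finset.mul_sum, ← Finset.mul_sum,
      ← Finset.mul_sum, hsym]
    ring
  refine ⟨∑ x, d x * g (x⁻¹ * c ^ 2) + 2 ^ a * ∑ x, d x * d (x⁻¹ * c ^ 2) + 2 * d e - t, ?_⟩
  have h3 : f c - g c = (∑ x, f x * f (x⁻¹ * c ^ 2) - ∑ x, g x * g (x⁻¹ * c ^ 2)) +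
      4 * (f e - g e) - 2 * (F (w * c ^ 2) - G (w * c ^ 2)) := by
    linarith
  rw [h3, hsum, ht, hd e]
  ring

/-- equality is inherited -/
theorem eq_of_rel (hodd : Odd (Nat.card Q)) {w : Q} {f F G : Q → ℤ} (hF : Rel w f F)
    (hG : Rel w f G) (k : Q) : F k = G k := by
  obtain ⟨c, hc⟩ := sq_surj hodd (w⁻¹ * k)
  obtain ⟨e, he⟩ := sq_surj hodd (w * c ^ 2)
  have h1 := hF c e he
  have h2 := hG c e he
  have h3 : w * c ^ 2 = k := by rw [hc, mul_inv_cancel_left]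
  rw [h3] at h1 h2
  linarith

end Pool.Agent.U152.IN
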