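import Pool.Agent.U152.IN.Lev

/-!
# Equivariant bijections respecting classes of degrees
-/

set_option autoImplicit false
set_option linter.unusedSectionVars false

open scoped BigOperators Classical

noncomputable section

namespace Pool.Agent.U152.IN

open Pool.Agent.Q90.WR Pool.Agent.Q259.BW Pool.Agent.H254R3.IN

variable {p : ℕ} [hp : Fact p.Prime]

/-- There is a bijection `A → A'` commuting with all `σ ∈ Γ` and preserving degrees modulo `p` up to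
factors in `R`. -/
def DBij (R : Subgroup (ZMod p)ˣ) (Γ : Set (ℂ ≃+* ℂ)) {G H : Type} [Group G] [Group H]
    (A : Set (G → ℂ)) (A' : Set (H → ℂ)) : Prop :=
  ∃ f : A ≃ A', (∀ σ ∈ Γ, ∀ χ : A, ∃ h : (fun g => σ ((χ : G → ℂ) g)) ∈ A,
    (f ⟨fun g => σ ((χ : G → ℂ) g), h⟩ : H → ℂ) = fun g => σ ((f χ : H → ℂ) g)) ∧
    ∀ χ : A, ∃ (m n : ℕ) (r : (ZMod p)ˣ), (m : ℂ) = (χ : G → ℂ) 1 ∧ (n : ℂ) = (f χ : H → ℂ) 1 ∧
      r ∈ R ∧ (m : ZMod p) = r * n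

theorem same_class {R : Subgroup (ZMod p)ˣ} {G H : Type} [Group G] [Group H] {χ : G → ℂ}
    {ψ : H → ℂ} (hχ : PrimeDeg p χ) :
    (∃ (m n : ℕ) (r : (ZMod p)ˣ), (m : ℂ) = χ 1 ∧ (n : ℂ) = ψ 1 ∧ r ∈ R ∧ (m : ZMod p) = r * n) ↔
      ∃ q, InCl R q χ ∧ InCl R q ψ := by
  constructor
  · rintro ⟨m, n, r, h1, h2, h3, h4⟩
    obtain ⟨m', h5, h6⟩ := hχ
    have e : m' = m := Nat.cast_injective (R := ℂ) (h5.trans h1.symm)
    rw [e] at h6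
    obtain ⟨u, hu⟩ := unit_of_prime h6
    have hn : (n : ZMod p) = ((r⁻¹ * u : (ZMod p)ˣ) : ZMod p) := by
      rw [Units.val_mul, ← hu, h4, Units.inv_mul_cancel_left]
    refine ⟨_, ⟨m, u, h1, hu, rfl⟩, ⟨n, r⁻¹ * u, h2, hn, ?_⟩⟩
    rw [QuotientGroup.eq, mul_inv, inv_inv, mul_assoc, inv_mul_cancel, mul_one]
    exact h3
  · rintro ⟨q, ⟨m, u, h1, h2, h3⟩, ⟨n, v, h4, h5, h6⟩⟩
    refine ⟨m, n, u * v⁻¹, h1, h4, ?_, ?_⟩
    · rw [← h3, QuotientGroup.eq] at h6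
      rwa [mul_comm]
    · rw [h2, h5, Units.val_mul, Units.inv_mul_cancel_right]

/-- the part of `A` with degrees in the class `q` -/
def part (R : Subgroup (ZMod p)ˣ) (q : (ZMod p)ˣ ⧸ R) {G : Type} [Group G] (A : Set (G → ℂ)) :
    Set (G → ℂ) := {χ | χ ∈ A ∧ InCl R q χ}

theorem nf_part (R : Subgroup (ZMod p)ˣ) (S : Set (ℂ ≃+* ℂ)) (G : Type) [Group G]
    (q : (ZMod p)ˣ ⧸ R) : nf R S G q = Nat.card (Fx S (part R q (XP p G))) := by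
  have h : {χ | χ ∈ Fx S (XP p G) ∧ InCl R q χ} = Fx S (part R q (XP p G)) := by
    ext χ
    constructor
    · rintro ⟨⟨h1, h2⟩, h3⟩
      exact ⟨⟨h1, h3⟩, h2⟩
    · rintro ⟨⟨h1, h3⟩, h2⟩
      exact ⟨⟨h1, h2⟩, h3⟩
  unfold nf nu
  rw [h]

theorem stable_part {R : Subgroup (ZMod p)ˣ} {q : (ZMod p)ˣ ⧸ R} {G : Type} [Group G]
    (S : Set (ℂ ≃+* ℂ)) : StableS S (part R q (XP p G)) := by
  rintro σ hσ χ ⟨h1, n, u, h2, h3⟩
  refine ⟨stable_XP S σ hσ χ h1, n, u, ?_, h3⟩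
  change (n : ℂ) = σ (χ 1)
  rw [← h2, map_natCast]

section glue

variable {R : Subgroup (ZMod p)ˣ} {G H : Type} [Group G] [Group H] {A : Set (G → ℂ)}
  {A' : Set (H → ℂ)} (F : ∀ q, part R q A ≃ part R q A')

theorem glue_congr {q q' : (ZMod p)ˣ ⧸ R} {χ : G → ℂ} (h : χ ∈ part R q A)
    (h' : χ ∈ part R q' A) : (F q ⟨χ, h⟩ : H → ℂ) = F q' ⟨χ, h'⟩ := by
  have e : q = q' := h.2.unique h'.2
  subst e
  rfl

theorem glue_inj {q q' : (ZMod p)ˣ ⧸ R} {χ ψ : G → ℂ} (h : χ ∈ part R q A)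
    (h' : ψ ∈ part R q' A) (e : (F q ⟨χ, h⟩ : H → ℂ) = F q' ⟨ψ, h'⟩) : χ = ψ := by
  have e1 : q = q' := by
    have h2 := (F q ⟨χ, h⟩).2.2
    rw [e] at h2
    exact h2.unique (F q' ⟨ψ, h'⟩).2.2
  subst e1
  exact congrArg Subtype.val ((F q).injective (Subtype.ext e))

end glue

theorem dbij_iff {R : Subgroup (ZMod p)ˣ} (Γ : Subgroup (ℂ ≃+* ℂ)) (G H : Type) [Group G]
    [Group H] [Finite G] [Finite H] : DBij R (Γ : Set (ℂ ≃+* ℂ)) (XP p G) (XP p H) ↔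
      ∀ Δ : Subgroup (ℂ ≃+* ℂ), Δ ≤ Γ → ∀ q, nf R (Δ : Set (ℂ ≃+* ℂ)) G q =
        nf R (Δ : Set (ℂ ≃+* ℂ)) H q := by
  constructor
  · rintro ⟨f, hf, hd⟩ Δ hΔ q
    have key : ∀ χ : XP p G, InCl R q (χ : G → ℂ) ↔ InCl R q (f χ : H → ℂ) := by
      intro χ
      obtain ⟨q', h1, h2⟩ := (same_class χ.2.2).mp (hd χ)
      constructor
      · intro h
        rwa [h.unique h1]
      · intro h
        rwa [h.unique h2]
    rw [nf_part, nf_part, Nat.cast_inj]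
    let f' : part R q (XP p G) ≃ part R q (XP p H) :=
      { toFun := fun χ => ⟨f ⟨χ.1, χ.2.1⟩, (f ⟨χ.1, χ.2.1⟩).2, (key ⟨χ.1, χ.2.1⟩).mp χ.2.2⟩
        invFun := fun χ => ⟨f.symm ⟨χ.1, χ.2.1⟩, (f.symm ⟨χ.1, χ.2.1⟩).2,
          (key (f.symm ⟨χ.1, χ.2.1⟩)).mpr (by
            rw [Equiv.apply_symm_apply]
            exact χ.2.2)⟩
        left_inv := fun χ => by
          have h := f.symm_apply_apply ⟨χ.1, χ.2.1⟩
          exact Subtype.ext (congrArg (fun z : XP p G => (z : G → ℂ)) h)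
        right_inv := fun χ => by
          have h := f.apply_symm_apply ⟨χ.1, χ.2.1⟩
          exact Subtype.ext (congrArg (fun z : XP p H => (z : H → ℂ)) h) }
    refine num_of_bij (Γ := (Γ : Set (ℂ ≃+* ℂ))) ⟨f', ?_⟩ hΔ
    intro σ hσ χ
    obtain ⟨h1, h2⟩ := hf σ hσ ⟨χ.1, χ.2.1⟩
    exact ⟨stable_part Γ σ hσ χ.1 χ.2, h2⟩
  · intro h
    have h1 : ∀ q, EquivBij (Γ : Set (ℂ ≃+* ℂ)) (part R q (XP p G)) (part R q (XP p H)) := by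
      intro q
      refine bij_of_num (finite_of_irr fun χ hχ => hχ.1.1) (finite_of_irr fun χ hχ => hχ.1.1)
        (stable_part _) (stable_part _) fun Δ hΔ => ?_
      have h2 := h Δ hΔ q
      rw [nf_part, nf_part] at h2
      exact_mod_cast h2
    choose F hF using h1
    have hc : ∀ χ : XP p G, ∃ q, (χ : G → ℂ) ∈ part R q (XP p G) := by
      intro χ
      obtain ⟨q, hq⟩ := exists_InCl R χ.2.2
      exact ⟨q, χ.2, hq⟩
    choose q hq using hc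
    let g : XP p G → XP p H := fun χ => ⟨F (q χ) ⟨χ.1, hq χ⟩, (F (q χ) ⟨χ.1, hq χ⟩).2.1⟩
    have hg : ∀ (χ : XP p G) (q' : (ZMod p)ˣ ⧸ R) (h : (χ : G → ℂ) ∈ part R q' (XP p G)),
        (g χ : H → ℂ) = F q' ⟨χ.1, h⟩ := fun χ q' h => glue_congr F (hq χ) h
    have hbij : Function.Bijective g := by
      constructor
      · intro χ ψ e
        exact Subtype.ext (glue_inj F (hq χ) (hq ψ) (congrArg Subtype.val e))
      · intro ψ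
        obtain ⟨q', hq'⟩ := exists_InCl R ψ.2.2
        have m := ((F q').symm ⟨ψ.1, ψ.2, hq'⟩).2
        refine ⟨⟨(F q').symm ⟨ψ.1, ψ.2, hq'⟩, m.1⟩, Subtype.ext ?_⟩
        rw [hg _ q' m]
        have := (F q').apply_symm_apply ⟨ψ.1, ψ.2, hq'⟩
        exact congrArg Subtype.val this
    refine ⟨Equiv.ofBijective g hbij, ?_, ?_⟩
    · intro σ hσ χ
      refine ⟨stable_XP _ σ hσ _ χ.2, ?_⟩
      obtain ⟨h2, h3⟩ := hF (q χ) σ hσ ⟨χ.1, hq χ⟩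
      rw [Equiv.ofBijective_apply, Equiv.ofBijective_apply, hg _ (q χ) h2]
      exact h3
    · intro χ
      rw [same_class χ.2.2]
      exact ⟨q χ, (hq χ).2, (F (q χ) ⟨χ.1, hq χ⟩).2.2⟩

/-- the criterion for one group -/
theorem one_group (hp2 : p ≠ 2) {R : Subgroup (ZMod p)ˣ} (hR : Odd (Nat.card ((ZMod p)ˣ ⧸ R)))
    (G : Type) [Group G] [Finite G] (P : Sylow p G) (Γ : Subgroup (ℂ ≃+* ℂ))
    (h1 : Odd' p (Γ : Set (ℂ ≃+* ℂ)) G) (h2 : Odd' p (Γ : Set (ℂ ≃+* ℂ)) (NS P)) :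
    DBij R (Γ : Set (ℂ ≃+* ℂ)) (XP p G) (XP p (NS P)) ↔
      ∀ Δ : Subgroup (ℂ ≃+* ℂ), Δ ≤ Γ → ∀ j, 2 ^ j ≤ Nat.card G → ∀ Q : Sylow p (WrN j G), ∀ c,
        (2 : ℤ) ∣ nf R (Δ : Set (ℂ ≃+* ℂ)) (WrN j G) c - nf R (Δ : Set (ℂ ≃+* ℂ)) (NS Q) c := by
  rw [dbij_iff]
  have mono : ∀ {Δ : Subgroup (ℂ ≃+* ℂ)} {K : Type} [Group K], Δ ≤ Γ →
      Odd' p (Γ : Set (ℂ ≃+* ℂ)) K → Odd' p (Δ : Set (ℂ ≃+* ℂ)) K :=
    fun hΔ h σ hσ => h σ (hΔ hσ)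
  constructor
  · intro h Δ hΔ j _ Q c
    rw [eq_levels hp2 hR j G P (mono hΔ h1) (mono hΔ h2) (h Δ hΔ) Q c, sub_self]
    exact dvd_zero _
  · intro h Δ hΔ q
    exact criterion hp2 hR G P (mono hΔ h1) (mono hΔ h2) (h Δ hΔ) q

/-- all groups in a class -/
theorem all_groups (hp2 : p ≠ 2) {R : Subgroup (ZMod p)ˣ} (hR : Odd (Nat.card ((ZMod p)ˣ ⧸ R)))
    (C : (G : Type) → Group G → Prop)
    (hC : ∀ (G : Type) [i : Group G], C G i → Finite G ∧ C (Wr G) inferInstance)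
    (H : Set (ℂ ≃+* ℂ)) :
    (∀ (G : Type) [i : Group G], C G i → ∀ (P : Sylow p G) (Γ : Subgroup (ℂ ≃+* ℂ)),
      (Γ : Set (ℂ ≃+* ℂ)) ⊆ H → Odd' p (Γ : Set (ℂ ≃+* ℂ)) G → Odd' p (Γ : Set (ℂ ≃+* ℂ)) (NS P) →
      DBij R (Γ : Set (ℂ ≃+* ℂ)) (XP p G) (XP p (NS P))) ↔
    ∀ (G : Type) [i : Group G], C G i → ∀ (P : Sylow p G) (Γ : Subgroup (ℂ ≃+* ℂ)),
      (Γ : Set (ℂ ≃+* ℂ)) ⊆ H → Odd' p (Γ : Set (ℂ ≃+* ℂ)) G → Odd' p (Γ : Set (ℂ ≃+* ℂ)) (NS P) →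
      ∀ c, (2 : ℤ) ∣ nf R (Γ : Set (ℂ ≃+* ℂ)) G c - nf R (Γ : Set (ℂ ≃+* ℂ)) (NS P) c := by
  have hN : ∀ (j : ℕ) (G : Type) [i : Group G], C G i → C (WrN j G) inferInstance := by
    intro j
    induction j with
    | zero => exact fun G _ h => h
    | succ j ih => exact fun G _ h => ih (Wr G) (hC G h).2
  have lev : ∀ (j : ℕ) (S : Set (ℂ ≃+* ℂ)) (G : Type) [Group G] [Finite G] (P : Sylow p G),
      Odd' p S G → Odd' p S (NS P) → ∀ Q : Sylow p (WrN j G), Odd' p S (WrN j G) ∧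
        Odd' p S (NS Q) := by
    intro j S
    induction j with
    | zero =>
      intro G _ _ P h1 h2 Q
      obtain ⟨e⟩ := norm_equiv Q P
      exact ⟨h1, odd_congr (H := NS Q) (K := NS P) e h2⟩
    | succ j ih =>
      intro G _ _ P h1 h2 Q
      obtain ⟨T, o1, o2, -, -⟩ := wr_pair hp2 hR G P h1 h2
      exact ih (Wr G) T o1 o2 Q
  constructor
  · intro h G _ hG P Γ hΓ h1 h2 c
    have := (hC G hG).1
    rw [(dbij_iff Γ G (NS P)).mp (h G hG P Γ hΓ h1 h2) Γ le_rfl c, sub_self]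
    exact dvd_zero _
  · intro h G _ hG P Γ hΓ h1 h2
    have := (hC G hG).1
    rw [one_group hp2 hR G P Γ h1 h2]
    intro Δ hΔ j _ Q c
    obtain ⟨o1, o2⟩ := lev j (Δ : Set (ℂ ≃+* ℂ)) G P (fun σ hσ => h1 σ (hΔ hσ))
      (fun σ hσ => h2 σ (hΔ hσ)) Q
    exact h (WrN j G) (hN j G hG) Q Δ (fun σ hσ => hΓ (hΔ hσ)) o1 o2 c

end Pool.Agent.U152.IN
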