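import Pool.Agent.U152.IN.Alg
import Pool.Agent.Q259.BW.Bij

/-!
# Degrees modulo `p` of the characters of `G ≀ C₂`
-/

set_option autoImplicit false
set_option linter.unusedSectionVars false

open scoped BigOperators Classical

noncomputable section

namespace Pool.Agent.U152.IN

open Pool.Agent.Q90.WR Pool.Agent.Q259.BW Pool.Agent.H254R3.IN

/-- The subgroup of the elements of order a power of `2` of `(ℤ/p)ˣ`. -/
def R2 (p : ℕ) : Subgroup (ZMod p)ˣ where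
  carrier := {r | ∃ k : ℕ, r ^ 2 ^ k = 1}
  one_mem' := ⟨0, one_pow _⟩
  mul_mem' := by
    rintro a b ⟨k, hk⟩ ⟨l, hl⟩
    refine ⟨k + l, ?_⟩
    rw [mul_pow, pow_add, pow_mul, hk, one_pow, one_mul, mul_comm (2 ^ k), pow_mul, hl, one_pow]
  inv_mem' := by
    rintro a ⟨k, hk⟩
    exact ⟨k, by rw [inv_pow, hk, inv_one]⟩

theorem mem_R2 {p : ℕ} {r : (ZMod p)ˣ} : r ∈ R2 p ↔ ∃ k : ℕ, r ^ 2 ^ k = 1 := Iff.rfl

variable {p : ℕ} [hp : Fact p.Prime]

theorem odd_quot : Odd (Nat.card ((ZMod p)ˣ ⧸ R2 p)) := by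
  by_contra h
  rw [Nat.not_odd_iff_even, even_iff_two_dvd] at h
  have : Fact (Nat.Prime 2) := ⟨Nat.prime_two⟩
  obtain ⟨x, hx⟩ := exists_prime_orderOf_dvd_card' (G := (ZMod p)ˣ ⧸ R2 p) 2 h
  obtain ⟨u, rfl⟩ := QuotientGroup.mk_surjective x
  have h1 : (QuotientGroup.mk u : (ZMod p)ˣ ⧸ R2 p) ^ 2 = 1 := by
    rw [← hx]
    exact pow_orderOf_eq_one _
  rw [← QuotientGroup.mk_pow, QuotientGroup.eq_one_iff, mem_R2] at h1
  obtain ⟨k, hk⟩ := h1
  have h2 : (QuotientGroup.mk u : (ZMod p)ˣ ⧸ R2 p) = 1 := by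
    rw [QuotientGroup.eq_one_iff, mem_R2]
    exact ⟨k + 1, by rw [pow_succ', pow_mul, hk]⟩
  rw [h2, orderOf_one] at hx
  omega

/-- The degree of `χ` is a natural number prime to `p` whose class in `(ℤ/p)ˣ ⧸ R` is `q`. -/
def InCl (R : Subgroup (ZMod p)ˣ) (q : (ZMod p)ˣ ⧸ R) {G : Type} [Group G] (χ : G → ℂ) : Prop :=
  ∃ (n : ℕ) (u : (ZMod p)ˣ), (n : ℂ) = χ 1 ∧ (n : ZMod p) = u ∧ (u : (ZMod p)ˣ ⧸ R) = q

theorem InCl.unique {R : Subgroup (ZMod p)ˣ} {q q' : (ZMod p)ˣ ⧸ R} {G : Type} [Group G]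
    {χ : G → ℂ} (h : InCl R q χ) (h' : InCl R q' χ) : q = q' := by
  obtain ⟨n, u, h1, h2, rfl⟩ := h
  obtain ⟨n', u', h1', h2', rfl⟩ := h'
  have e : n = n' := Nat.cast_injective (R := ℂ) (h1.trans h1'.symm)
  subst e
  have e2 : u = u' := Units.ext (h2.symm.trans h2')
  rw [e2]

theorem exists_deg {G : Type} [Group G] {χ : G → ℂ} (h : IsIrr χ) : ∃ n : ℕ, (n : ℂ) = χ 1 := by
  obtain ⟨V, _, _, _, ρ, -, rfl⟩ := h
  exact ⟨Module.finrank ℂ V, (Representation.char_one ρ).symm⟩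

theorem unit_of_prime {n : ℕ} (h : ¬ p ∣ n) : ∃ u : (ZMod p)ˣ, (n : ZMod p) = u := by
  have h1 : (n : ZMod p) ≠ 0 := by
    rw [Ne, ZMod.natCast_eq_zero_iff]
    exact h
  exact ⟨Units.mk0 _ h1, rfl⟩

theorem exists_InCl (R : Subgroup (ZMod p)ˣ) {G : Type} [Group G] {χ : G → ℂ}
    (h : PrimeDeg p χ) : ∃ q, InCl R q χ := by
  obtain ⟨n, h1, h2⟩ := h
  obtain ⟨u, hu⟩ := unit_of_prime h2
  exact ⟨_, n, u, h1, hu, rfl⟩

theorem primeDeg_of_InCl {R : Subgroup (ZMod p)ˣ} {q : (ZMod p)ˣ ⧸ R} {G : Type} [Group G]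
    {χ : G → ℂ} (h : InCl R q χ) : PrimeDeg p χ := by
  obtain ⟨n, u, h1, h2, -⟩ := h
  refine ⟨n, h1, fun h3 => ?_⟩
  rw [← ZMod.natCast_eq_zero_iff, h2] at h3
  exact u.ne_zero h3

section wr

variable {G : Type} [Group G] {R : Subgroup (ZMod p)ˣ}

theorem ind2_one (θ₁ θ₂ : G → ℂ) : ind2 θ₁ θ₂ (1 : Wr G) = θ₁ 1 * θ₂ 1 + θ₂ 1 * θ₁ 1 := rfl

theorem ext2_one (ε : ℂ) (θ : G → ℂ) : ext2 ε θ (1 : Wr G) = θ 1 * θ 1 := rfl

/-- the class of `2` -/
def two (hp2 : p ≠ 2) : (ZMod p)ˣ := Units.mk0 (2 : ZMod p) (by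
  intro h
  have h1 : ((2 : ℕ) : ZMod p) = 0 := by exact_mod_cast h
  rw [ZMod.natCast_eq_zero_iff] at h1
  exact hp2 ((Nat.prime_dvd_prime_iff_eq hp.out Nat.prime_two).mp h1))

theorem InCl_ind2 (hp2 : p ≠ 2) {θ₁ θ₂ : G → ℂ} (i1 : IsIrr θ₁) (i2 : IsIrr θ₂)
    (k : (ZMod p)ˣ ⧸ R) : InCl R k (ind2 θ₁ θ₂) ↔
      ∃ a b, InCl R a θ₁ ∧ InCl R b θ₂ ∧ ((two hp2 : (ZMod p)ˣ) : (ZMod p)ˣ ⧸ R) * (a * b) = k := by
  constructor
  · rintro ⟨n, u, h1, h2, h3⟩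
    obtain ⟨n1, e1⟩ := exists_deg i1
    obtain ⟨n2, e2⟩ := exists_deg i2
    have h4 : n = 2 * (n1 * n2) := by
      apply Nat.cast_injective (R := ℂ)
      rw [h1, ind2_one, ← e1, ← e2]
      push_cast
      ring
    have h5 : ¬ p ∣ n := by
      intro h
      rw [← ZMod.natCast_eq_zero_iff, h2] at h
      exact u.ne_zero h
    have h6 : ¬ p ∣ n1 := fun h => h5 (by rw [h4]; exact dvd_mul_of_dvd_right (dvd_mul_of_dvd_left h _) _)
    have h7 : ¬ p ∣ n2 := fun h => h5 (by rw [h4]; exact dvd_mul_of_dvd_right (dvd_mul_of_dvd_right h _) _)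
    obtain ⟨u1, hu1⟩ := unit_of_prime h6
    obtain ⟨u2, hu2⟩ := unit_of_prime h7
    refine ⟨_, _, ⟨n1, u1, e1, hu1, rfl⟩, ⟨n2, u2, e2, hu2, rfl⟩, ?_⟩
    rw [← h3, ← QuotientGroup.mk_mul, ← QuotientGroup.mk_mul]
    congr 1
    apply Units.ext
    rw [← h2, h4]
    push_cast
    rw [hu1, hu2]
    rfl
  · rintro ⟨a, b, ⟨n1, u1, e1, h1, rfl⟩, ⟨n2, u2, e2, h2, rfl⟩, rfl⟩
    refine ⟨2 * (n1 * n2), two hp2 * (u1 * u2), ?_, ?_, ?_⟩
    · rw [ind2_one, ← e1, ← e2]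
      push_cast
      ring
    · push_cast
      rw [h1, h2]
      rfl
    · rw [QuotientGroup.mk_mul, QuotientGroup.mk_mul]

theorem InCl_ext2 {θ : G → ℂ} (i : IsIrr θ) (ε : ℂ) (k : (ZMod p)ˣ ⧸ R) :
    InCl R k (ext2 ε θ) ↔ ∃ a, InCl R a θ ∧ a ^ 2 = k := by
  constructor
  · rintro ⟨n, u, h1, h2, h3⟩
    obtain ⟨n1, e1⟩ := exists_deg i
    have h4 : n = n1 * n1 := by
      apply Nat.cast_injective (R := ℂ)
      rw [h1, ext2_one, ← e1]
      push_cast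
      ring
    have h5 : ¬ p ∣ n := by
      intro h
      rw [← ZMod.natCast_eq_zero_iff, h2] at h
      exact u.ne_zero h
    have h6 : ¬ p ∣ n1 := fun h => h5 (by rw [h4]; exact dvd_mul_of_dvd_left h _)
    obtain ⟨u1, hu1⟩ := unit_of_prime h6
    refine ⟨_, ⟨n1, u1, e1, hu1, rfl⟩, ?_⟩
    rw [← h3, ← QuotientGroup.mk_pow]
    congr 1
    apply Units.ext
    rw [← h2, h4]
    push_cast
    rw [hu1, pow_two]
  · rintro ⟨a, ⟨n1, u1, e1, h1, rfl⟩, rfl⟩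
    refine ⟨n1 * n1, u1 ^ 2, ?_, ?_, ?_⟩
    · rw [ext2_one, ← e1]
      push_cast
      ring
    · push_cast
      rw [h1, pow_two]
    · rw [QuotientGroup.mk_pow]

/-- The number of the characters in `A` with a degree in the class `q`. -/
def nu (R : Subgroup (ZMod p)ˣ) (A : Set (G → ℂ)) (q : (ZMod p)ˣ ⧸ R) : ℤ :=
  Nat.card {χ | χ ∈ A ∧ InCl R q χ}

open Pool.Agent.Helper884.IC in
/-- **The numbers for the wreath product.** -/
theorem rel_WrS [Fintype G] (hp2 : p ≠ 2) (hR : Odd (Nat.card ((ZMod p)ˣ ⧸ R))) {A : Set (G → ℂ)}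
    (hA : ∀ θ ∈ A, IsIrr θ) : Rel ((two hp2 : (ZMod p)ˣ) : (ZMod p)ˣ ⧸ R) (nu R A)
      (nu R (WrS A)) := by
  intro c e he
  set w : (ZMod p)ˣ ⧸ R := ((two hp2 : (ZMod p)ˣ) : (ZMod p)ˣ ⧸ R) with hw
  obtain ⟨Z, hZ⟩ : ∃ Z : Set (Wr G → ℂ), Z = {χ | χ ∈ WrS A ∧ InCl R (w * c ^ 2) χ} := ⟨_, rfl⟩
  have memZ : ∀ χ, χ ∈ Z ↔ χ ∈ WrS A ∧ InCl R (w * c ^ 2) χ := fun χ => by rw [hZ]; rfl
  have h := count (G := G) (fun χ => χ ∈ Z)
  have hB : ∀ θ ∈ Z, IsIrr θ := fun θ hθ => WrS_irr hA θ ((memZ θ).mp hθ).1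
  rw [← card_set hB] at h
  have hS : ∀ q, nu R A q = ((Irr G).filter fun χ => χ ∈ A ∧ InCl R q χ).card := by
    intro q
    obtain ⟨Y, hY⟩ : ∃ Y : Set (G → ℂ), Y = {χ | χ ∈ A ∧ InCl R q χ} := ⟨_, rfl⟩
    have e0 : ((Irr G).filter (· ∈ Y)) = (Irr G).filter fun χ => χ ∈ A ∧ InCl R q χ := by
      ext χ
      rw [Finset.mem_filter, Finset.mem_filter, hY]
      rfl
    have e1 : nu R A q = Nat.card Y := by rw [hY]; rfl
    rw [e1, card_set (A := Y) fun θ hθ => hA θ (by rw [hY] at hθ; exact hθ.1), e0]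
  have h2 : ∀ ε : ℂ, (ε = 1 ∨ ε = -1) →
      (((Irr G).filter fun θ => ext2 ε θ ∈ Z).card : ℤ) = nu R A e := by
    intro ε hε
    rw [hS]
    have e0 : ((Irr G).filter fun θ => ext2 ε θ ∈ Z) =
        (Irr G).filter fun χ => χ ∈ A ∧ InCl R e χ := ?_
    · rw [e0]
    ext θ
    rw [Finset.mem_filter, Finset.mem_filter, Pool.Agent.Helper884.IC.mem_Irr]
    refine and_congr_right fun hθ => ?_
    rw [memZ, mem_WrS_ext hA hθ hε, InCl_ext2 hθ]
    refine and_congr_right fun _ => ?_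
    constructor
    · rintro ⟨a, h3, h4⟩
      rw [← he] at h4
      rw [← sq_inj hR h4]
      exact h3
    · intro h3
      exact ⟨e, h3, he⟩
  have h3 : (((Irr G).offDiag.filter fun t => ind2 t.1 t.2 ∈ Z).card : ℤ) =
        ∑ a, nu R A a * nu R A (a⁻¹ * c ^ 2) - nu R A c := by
    set T := (Irr G).filter (· ∈ A) with hT
    have memT : ∀ θ, θ ∈ T ↔ IsIrr θ ∧ θ ∈ A := by
      intro θ
      rw [hT, Finset.mem_filter, Pool.Agent.Helper884.IC.mem_Irr]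
      rfl
    have e1 : ((Irr G).offDiag.filter fun t => ind2 t.1 t.2 ∈ Z) =
        T.offDiag.filter fun t => InCl R (w * c ^ 2) (ind2 t.1 t.2) := by
      ext t
      simp only [Finset.mem_filter, Finset.mem_offDiag, Pool.Agent.Helper884.IC.mem_Irr, memT,
        memZ]
      constructor
      · rintro ⟨⟨a1, a2, hne⟩, a3, a4⟩
        rw [mem_WrS_ind hA a1 a2 hne] at a3
        exact ⟨⟨⟨a1, a3.1⟩, ⟨a2, a3.2⟩, hne⟩, a4⟩
      · rintro ⟨⟨⟨a1, a3⟩, ⟨a2, a5⟩, hne⟩, a4⟩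
        exact ⟨⟨a1, a2, hne⟩, (mem_WrS_ind hA a1 a2 hne).mpr ⟨a3, a5⟩, a4⟩
    have e2 : ((T ×ˢ T).filter fun t => InCl R (w * c ^ 2) (ind2 t.1 t.2)) =
        Finset.univ.biUnion fun a : (ZMod p)ˣ ⧸ R =>
          (T.filter (InCl R a)) ×ˢ (T.filter (InCl R (a⁻¹ * c ^ 2))) := by
      ext t
      simp only [Finset.mem_filter, Finset.mem_product, Finset.mem_biUnion, Finset.mem_univ,
        true_and]
      constructor
      · rintro ⟨⟨a1, a2⟩, a3⟩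
        rw [InCl_ind2 hp2 ((memT _).mp a1).1 ((memT _).mp a2).1] at a3
        obtain ⟨a, b, b1, b2, b3⟩ := a3
        have b4 : b = a⁻¹ * c ^ 2 := by
          rw [← hw] at b3
          have := mul_left_cancel b3
          rw [← this, inv_mul_cancel_left]
        rw [b4] at b2
        exact ⟨a, ⟨a1, b1⟩, a2, b2⟩
      · rintro ⟨a, ⟨a1, b1⟩, a2, b2⟩
        refine ⟨⟨a1, a2⟩, ?_⟩
        rw [InCl_ind2 hp2 ((memT _).mp a1).1 ((memT _).mp a2).1]
        exact ⟨a, _, b1, b2, by rw [mul_inv_cancel_left]⟩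
    have e3 : (((T ×ˢ T).filter fun t => InCl R (w * c ^ 2) (ind2 t.1 t.2)).card : ℤ) =
        ∑ a, nu R A a * nu R A (a⁻¹ * c ^ 2) := by
      rw [e2, Finset.card_biUnion]
      · push_cast
        refine Finset.sum_congr rfl fun a _ => ?_
        rw [Finset.card_product, hS, hS]
        push_cast
        rw [hT, Finset.filter_filter, Finset.filter_filter]
      · intro a _ b _ hab
        rw [Function.onFun, Finset.disjoint_left]
        rintro t h1 h2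
        rw [Finset.mem_product, Finset.mem_filter] at h1 h2
        exact hab (h1.1.2.unique h2.1.2)
    have e4 : (T.diag.filter fun t => InCl R (w * c ^ 2) (ind2 t.1 t.2)).card =
        ((Irr G).filter fun χ => χ ∈ A ∧ InCl R c χ).card := by
      symm
      refine Finset.card_bij (fun θ _ => (θ, θ)) ?_ ?_ ?_
      · intro θ hθ
        rw [Finset.mem_filter, Pool.Agent.Helper884.IC.mem_Irr] at hθ
        rw [Finset.mem_filter, Finset.mem_diag, memT]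
        refine ⟨⟨⟨hθ.1, hθ.2.1⟩, rfl⟩, ?_⟩
        rw [InCl_ind2 hp2 hθ.1 hθ.1]
        exact ⟨c, c, hθ.2.2, hθ.2.2, by rw [pow_two]⟩
      · intro θ _ θ' _ h4
        exact congrArg Prod.fst h4
      · rintro ⟨θ, θ'⟩ ht
        rw [Finset.mem_filter, Finset.mem_diag, memT] at ht
        obtain ⟨⟨⟨a1, a2⟩, a3⟩, a4⟩ := ht
        simp only at a1 a2 a3 a4
        subst a3
        rw [InCl_ind2 hp2 a1 a1] at a4
        obtain ⟨a, b, b1, b2, b3⟩ := a4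
        have b4 := b1.unique b2
        subst b4
        rw [← hw] at b3
        have b5 : a ^ 2 = c ^ 2 := by
          rw [← mul_left_cancel b3, pow_two]
        have b6 := sq_inj hR b5
        subst b6
        refine ⟨θ, ?_, rfl⟩
        rw [Finset.mem_filter, Pool.Agent.Helper884.IC.mem_Irr]
        exact ⟨a1, a2, b1⟩
    have e5 : ((T ×ˢ T).filter fun t => InCl R (w * c ^ 2) (ind2 t.1 t.2)).card =
        (T.diag.filter fun t => InCl R (w * c ^ 2) (ind2 t.1 t.2)).card +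
          (T.offDiag.filter fun t => InCl R (w * c ^ 2) (ind2 t.1 t.2)).card := by
      rw [← Finset.diag_union_offDiag, Finset.filter_union, Finset.card_union_of_disjoint]
      exact Finset.disjoint_filter_filter (Finset.disjoint_diag_offDiag _)
    rw [e1, ← e3, hS c, ← e4, e5]
    push_cast
    ring
  have h4 : (2 : ℤ) * nu R (WrS A) (w * c ^ 2) =
      ((Irr G).offDiag.filter fun t => ind2 t.1 t.2 ∈ Z).card +
        2 * ((Irr G).filter fun θ => ext2 1 θ ∈ Z).card +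
        2 * ((Irr G).filter fun θ => ext2 (-1) θ ∈ Z).card := by
    have h5 := congrArg (Nat.cast (R := ℤ)) h
    rw [hZ] at h5
    rw [hZ]
    unfold nu
    rw [Nat.cast_mul, Nat.cast_add, Nat.cast_add, Nat.cast_mul, Nat.cast_mul] at h5
    exact h5
  rw [h4, h3, h2 1 (Or.inl rfl), h2 (-1) (Or.inr rfl)]
  ring

end wr

end Pool.Agent.U152.IN
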