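import Pool.Agent.U152.IN.Cnt

/-!
# The numbers of characters with given degree classes for the levels of a tower of wreath products
-/

set_option autoImplicit false
set_option linter.unusedSectionVars false

open scoped BigOperators Classical

noncomputable section

namespace Pool.Agent.U152.IN

open Pool.Agent.Q90.WR Pool.Agent.Q259.BW Pool.Agent.H254R3.IN

variable {p : ℕ} [hp : Fact p.Prime]

/-- the converse of the descent step -/
theorem step_back {Q : Type} [CommGroup Q] [Fintype Q] (hodd : Odd (Nat.card Q)) {w : Q}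
    {f g F G : Q → ℤ} (hF : Rel w f F) (hG : Rel w g G)
    {a : ℕ} (h : ∀ c, (2 : ℤ) ^ (a + 1) ∣ f c - g c) (k : Q) : (2 : ℤ) ^ a ∣ F k - G k := by
  obtain ⟨c, hc⟩ := sq_surj hodd (w⁻¹ * k)
  obtain ⟨e, he⟩ := sq_surj hodd (w * c ^ 2)
  have h1 := hF c e he
  have h2 := hG c e he
  have h0 : w * c ^ 2 = k := by rw [hc, mul_inv_cancel_left]
  rw [h0] at h1 h2
  choose d hd using h
  have hf : ∀ x, f x = g x + 2 ^ (a + 1) * d x := fun x => by rw [← hd x]; ring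
  have hsum : ∑ x, f x * f (x⁻¹ * c ^ 2) = ∑ x, g x * g (x⁻¹ * c ^ 2) +
      2 ^ (a + 1) * ∑ x, (g x * d (x⁻¹ * c ^ 2) + d x * g (x⁻¹ * c ^ 2) +
        2 ^ (a + 1) * (d x * d (x⁻¹ * c ^ 2))) := by
    rw [Finset.mul_sum, ← Finset.sum_add_distrib]
    refine Finset.sum_congr rfl fun x _ => ?_
    rw [hf x, hf (x⁻¹ * c ^ 2)]
    ring
  have h3 : 2 * (F k - G k) = 2 * (2 ^ a * ((∑ x, (g x * d (x⁻¹ * c ^ 2) +
      d x * g (x⁻¹ * c ^ 2) + 2 ^ (a + 1) * (d x * d (x⁻¹ * c ^ 2)))) - d c + 4 * d e)) := by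
    have h4 : 2 * (F k - G k) = (∑ x, f x * f (x⁻¹ * c ^ 2) - ∑ x, g x * g (x⁻¹ * c ^ 2)) -
        (f c - g c) + 4 * (f e - g e) := by linarith
    rw [h4, hsum, hd c, hd e]
    ring
  exact ⟨_, mul_left_cancel₀ two_ne_zero h3⟩

/-- `Irr_{p'}(G)` -/
def XP (p : ℕ) (G : Type) [Group G] : Set (G → ℂ) := {χ | IsIrr χ ∧ PrimeDeg p χ}

theorem XP_irr {G : Type} [Group G] : ∀ θ ∈ XP p G, IsIrr θ := fun _ h => h.1

theorem stable_XP {G : Type} [Group G] (S : Set (ℂ ≃+* ℂ)) : StableS S (XP p G) := by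
  rintro σ - χ ⟨h1, n, h2, h3⟩
  refine ⟨irr_gal σ h1, n, ?_, h3⟩
  change (n : ℂ) = σ (χ 1)
  rw [← h2, map_natCast]

theorem XP_wr (hp2 : p ≠ 2) {G : Type} [Group G] [Fintype G] : XP p (Wr G) = WrS (XP p G) := by
  have key : ∀ m n : ℕ, ¬ p ∣ m * n ↔ ¬ p ∣ m ∧ ¬ p ∣ n := by
    intro m n
    rw [hp.out.dvd_mul, not_or]
  have h2 : ¬ p ∣ 2 := fun h => hp2 ((Nat.prime_dvd_prime_iff_eq hp.out Nat.prime_two).mp h)
  have k1 : ∀ {θ₁ θ₂ : G → ℂ}, IsIrr θ₁ → IsIrr θ₂ →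
      (PrimeDeg p (ind2 θ₁ θ₂) ↔ PrimeDeg p θ₁ ∧ PrimeDeg p θ₂) := by
    intro θ₁ θ₂ i1 i2
    obtain ⟨n1, e1⟩ := exists_deg i1
    obtain ⟨n2, e2⟩ := exists_deg i2
    have e3 : ((2 * (n1 * n2) : ℕ) : ℂ) = ind2 θ₁ θ₂ 1 := by
      rw [ind2_one, ← e1, ← e2]
      push_cast
      ring
    have hq : ∀ {H : Type} [Group H] {χ : H → ℂ} {n : ℕ}, (n : ℂ) = χ 1 → (PrimeDeg p χ ↔ ¬ p ∣ n) := by
      intro H _ χ n hn
      constructor
      · rintro ⟨m, h3, h4⟩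
        have : m = n := Nat.cast_injective (R := ℂ) (h3.trans hn.symm)
        rwa [← this]
      · exact fun h => ⟨n, hn, h⟩
    rw [hq e1, hq e2, hq e3, key, key]
    tauto
  have k2 : ∀ {θ : G → ℂ} (ε : ℂ), IsIrr θ → (PrimeDeg p (ext2 ε θ) ↔ PrimeDeg p θ) := by
    intro θ ε i1
    obtain ⟨n1, e1⟩ := exists_deg i1
    have e3 : ((n1 * n1 : ℕ) : ℂ) = ext2 ε θ 1 := by
      rw [ext2_one, ← e1]
      push_cast
      ring
    have hq : ∀ {H : Type} [Group H] {χ : H → ℂ} {n : ℕ}, (n : ℂ) = χ 1 → (PrimeDeg p χ ↔ ¬ p ∣ n) := by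
      intro H _ χ n hn
      constructor
      · rintro ⟨m, h3, h4⟩
        have : m = n := Nat.cast_injective (R := ℂ) (h3.trans hn.symm)
        rwa [← this]
      · exact fun h => ⟨n, hn, h⟩
    rw [hq e1, hq e3, key]
    tauto
  ext χ
  constructor
  · rintro ⟨h1, h3⟩
    rcases cover h1 with ⟨θ₁, θ₂, i1, i2, hne, rfl⟩ | ⟨θ, i1, rfl⟩ | ⟨θ, i1, rfl⟩
    · obtain ⟨h4, h5⟩ := (k1 i1 i2).mp h3
      exact Or.inl ⟨θ₁, ⟨i1, h4⟩, θ₂, ⟨i2, h5⟩, hne, rfl⟩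
    · exact Or.inr ⟨θ, ⟨i1, (k2 _ i1).mp h3⟩, Or.inl rfl⟩
    · exact Or.inr ⟨θ, ⟨i1, (k2 _ i1).mp h3⟩, Or.inr rfl⟩
  · intro h
    refine ⟨WrS_irr XP_irr χ h, ?_⟩
    rcases h with ⟨θ₁, h1, θ₂, h2, -, rfl⟩ | ⟨θ, h1, rfl | rfl⟩
    · exact (k1 h1.1 h2.1).mpr ⟨h1.2, h2.2⟩
    · exact (k2 _ h1.1).mpr h1.2
    · exact (k2 _ h1.1).mpr h1.2

theorem XP_pull {H K : Type} [Group H] [Group K] [Finite H] [Finite K] (e : H ≃* K) :
    XP p H = pull e (XP p K) := by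
  have := Fintype.ofFinite H
  have := Fintype.ofFinite K
  ext χ
  constructor
  · rintro ⟨h1, n, h2, h3⟩
    exact ⟨(irr_symm e).mpr h1, n, h2.trans (congrArg χ (map_one e.symm)).symm, h3⟩
  · rintro ⟨h1, n, h2, h3⟩
    exact ⟨(irr_symm e).mp h1, n, h2.trans (congrArg χ (map_one e.symm)), h3⟩

/-- The number of the irreducible characters of `G` with degrees prime to `p` in the class `q`,
fixed by all `σ ∈ S`. -/
def nf (R : Subgroup (ZMod p)ˣ) (S : Set (ℂ ≃+* ℂ)) (G : Type) [Group G] (q : (ZMod p)ˣ ⧸ R) : ℤ :=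
  nu R (Fx S (XP p G)) q

theorem nf_congr {R : Subgroup (ZMod p)ˣ} {S : Set (ℂ ≃+* ℂ)} {H K : Type} [Group H] [Group K]
    [Finite H] [Finite K] (e : H ≃* K) (q : (ZMod p)ˣ ⧸ R) : nf R S H q = nf R S K q := by
  unfold nf nu
  rw [XP_pull e, fx_pull]
  have h : {χ | χ ∈ pull e (Fx S (XP p K)) ∧ InCl R q χ} =
      pull e {χ | χ ∈ Fx S (XP p K) ∧ InCl R q χ} := by
    ext χ
    constructor
    · rintro ⟨h1, n, u, h2, h3, h4⟩
      exact ⟨h1, n, u, h2.trans (congrArg χ (map_one e.symm)).symm, h3, h4⟩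
    · rintro ⟨h1, n, u, h2, h3, h4⟩
      exact ⟨h1, n, u, h2.trans (congrArg χ (map_one e.symm)), h3, h4⟩
  rw [h, card_pull]

/-- Some odd power of every `σ ∈ S` fixes all characters of `G` of degree prime to `p`. -/
def Odd' (p : ℕ) (S : Set (ℂ ≃+* ℂ)) (G : Type) [Group G] : Prop := OddOnS S (XP p G)

theorem odd_congr {S : Set (ℂ ≃+* ℂ)} {H K : Type} [Group H] [Group K]
    [Finite H] [Finite K] (e : H ≃* K) (h : Odd' p S K) : Odd' p S H := by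
  unfold Odd'
  rw [XP_pull e]
  exact oddOnS_pull e h

theorem odd_wr (hp2 : p ≠ 2) {S : Set (ℂ ≃+* ℂ)} {G : Type} [Group G] [Finite G]
    (h : Odd' p S G) : Odd' p S (Wr G) := by
  have := Fintype.ofFinite G
  unfold Odd'
  rw [XP_wr hp2]
  exact oddOnS_WrS h XP_irr

theorem nf_wr (hp2 : p ≠ 2) {R : Subgroup (ZMod p)ˣ} (hR : Odd (Nat.card ((ZMod p)ˣ ⧸ R)))
    {S : Set (ℂ ≃+* ℂ)} {G : Type} [Group G] [Finite G] (h : Odd' p S G) :
    Rel ((two hp2 : (ZMod p)ˣ) : (ZMod p)ˣ ⧸ R) (nf R S G) (nf R S (Wr G)) := by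
  have := Fintype.ofFinite G
  have h1 : nf R S (Wr G) = nu R (WrS (Fx S (XP p G))) := by
    unfold nf
    rw [XP_wr hp2, fx_WrS h XP_irr]
  rw [h1]
  exact rel_WrS hp2 hR fun θ hθ => XP_irr θ hθ.1

/-- the normalizer of a Sylow subgroup -/
abbrev NS {G : Type} [Group G] (P : Sylow p G) : Type :=
  Subgroup.normalizer ((P : Subgroup G) : Set G)

theorem wr_pair (hp2 : p ≠ 2) {R : Subgroup (ZMod p)ˣ} (hR : Odd (Nat.card ((ZMod p)ˣ ⧸ R)))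
    {S : Set (ℂ ≃+* ℂ)} (G : Type) [Group G] [Finite G] (P : Sylow p G) (h1 : Odd' p S G)
    (h2 : Odd' p S (NS P)) :
    ∃ Q : Sylow p (Wr G), Odd' p S (Wr G) ∧ Odd' p S (NS Q) ∧
      Rel ((two hp2 : (ZMod p)ˣ) : (ZMod p)ˣ ⧸ R) (nf R S G) (nf R S (Wr G)) ∧
      Rel ((two hp2 : (ZMod p)ˣ) : (ZMod p)ˣ ⧸ R) (nf R S (NS P)) (nf R S (NS Q)) := by
  obtain ⟨Q, hQ⟩ := exists_sylow hp2 P
  have e : Nonempty (NS Q ≃* Wr (NS P)) := by
    unfold NS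
    rw [hQ]
    exact ⟨normEquiv _⟩
  obtain ⟨e⟩ := e
  refine ⟨Q, odd_wr hp2 h1, odd_congr e (odd_wr hp2 h2), nf_wr hp2 hR h1, ?_⟩
  have h3 : nf R S (NS Q) = nf R S (Wr (NS P)) := funext fun q => nf_congr e q
  rw [h3]
  exact nf_wr hp2 hR h2

theorem dvd_of_levels (hp2 : p ≠ 2) {R : Subgroup (ZMod p)ˣ}
    (hR : Odd (Nat.card ((ZMod p)ˣ ⧸ R))) {S : Set (ℂ ≃+* ℂ)} :
    ∀ (a : ℕ) (G : Type) [Group G] [Finite G] (P : Sylow p G), Odd' p S G → Odd' p S (NS P) →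
    (∀ j ≤ a, ∀ Q : Sylow p (WrN j G), ∀ c, (2 : ℤ) ∣ nf R S (WrN j G) c - nf R S (NS Q) c) →
    ∀ c, (2 : ℤ) ^ (a + 1) ∣ nf R S G c - nf R S (NS P) c := by
  intro a
  induction a with
  | zero =>
    intro G _ _ P h1 h2 H c
    rw [zero_add, pow_one]
    exact H 0 le_rfl P c
  | succ a ih =>
    intro G _ _ P h1 h2 H c
    obtain ⟨Q, o1, o2, e1, e2⟩ := wr_pair hp2 hR G P h1 h2
    exact step hR e1 e2 (ih G P h1 h2 fun j hj T => H j (by omega) T)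
      (ih (Wr G) Q o1 o2 fun j hj T => H (j + 1) (by omega) T) c

theorem levels_of_dvd (hp2 : p ≠ 2) {R : Subgroup (ZMod p)ˣ}
    (hR : Odd (Nat.card ((ZMod p)ˣ ⧸ R))) {S : Set (ℂ ≃+* ℂ)} :
    ∀ (j a : ℕ) (G : Type) [Group G] [Finite G] (P : Sylow p G), Odd' p S G → Odd' p S (NS P) →
    (∀ c, (2 : ℤ) ^ (j + a) ∣ nf R S G c - nf R S (NS P) c) →
    ∀ Q : Sylow p (WrN j G), ∀ c, (2 : ℤ) ^ a ∣ nf R S (WrN j G) c - nf R S (NS Q) c := by
  intro j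
  induction j with
  | zero =>
    intro a G _ _ P h1 h2 H Q c
    obtain ⟨e⟩ := norm_equiv P Q
    rw [zero_add] at H
    have h3 : nf R S (NS P) c = nf R S (NS Q) c := nf_congr e c
    rw [← h3]
    exact H c
  | succ j ih =>
    intro a G _ _ P h1 h2 H Q c
    obtain ⟨T, o1, o2, e1, e2⟩ := wr_pair hp2 hR G P h1 h2
    refine ih a (Wr G) T o1 o2 ?_ Q c
    intro k
    refine step_back hR e1 e2 (a := j + a) ?_ k
    intro c'
    have := H c'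
    rwa [show j + 1 + a = j + a + 1 by ring] at this

theorem eq_levels (hp2 : p ≠ 2) {R : Subgroup (ZMod p)ˣ}
    (hR : Odd (Nat.card ((ZMod p)ˣ ⧸ R))) {S : Set (ℂ ≃+* ℂ)} :
    ∀ (a : ℕ) (G : Type) [Group G] [Finite G] (P : Sylow p G), Odd' p S G → Odd' p S (NS P) →
    (∀ c, nf R S G c = nf R S (NS P) c) →
    ∀ Q : Sylow p (WrN a G), ∀ c, nf R S (WrN a G) c = nf R S (NS Q) c := by
  intro a
  induction a with
  | zero =>
    intro G _ _ P h1 h2 H Q c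
    obtain ⟨e⟩ := norm_equiv P Q
    exact (H c).trans (nf_congr e c)
  | succ a ih =>
    intro G _ _ P h1 h2 H Q
    obtain ⟨T, o1, o2, e1, e2⟩ := wr_pair hp2 hR G P h1 h2
    refine ih (Wr G) T o1 o2 ?_ Q
    have h3 : nf R S G = nf R S (NS P) := funext H
    rw [h3] at e1
    exact eq_of_rel hR e1 e2

theorem nf_le (R : Subgroup (ZMod p)ˣ) (S : Set (ℂ ≃+* ℂ)) (G : Type) [Group G] [Finite G]
    (q : (ZMod p)ˣ ⧸ R) : nf R S G q ≤ Nat.card G := by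
  have := Fintype.ofFinite G
  unfold nf nu
  have h1 : Nat.card {χ | χ ∈ Fx S (XP p G) ∧ InCl R q χ} ≤ Nat.card (XP p G) :=
    Nat.card_mono (finite_of_irr XP_irr) fun χ hχ => hχ.1.1
  have h2 : Nat.card (XP p G) ≤ (Pool.Agent.Helper884.IC.Irr G).card := by
    rw [card_set XP_irr]
    exact Finset.card_filter_le _ _
  have h3 := card_Irr_le G
  exact_mod_cast (h1.trans h2).trans h3

theorem nf_nonneg (R : Subgroup (ZMod p)ˣ) (S : Set (ℂ ≃+* ℂ)) (G : Type) [Group G]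
    (q : (ZMod p)ˣ ⧸ R) : 0 ≤ nf R S G q := Int.natCast_nonneg _

/-- the criterion for a single group -/
theorem criterion (hp2 : p ≠ 2) {R : Subgroup (ZMod p)ˣ}
    (hR : Odd (Nat.card ((ZMod p)ˣ ⧸ R))) {S : Set (ℂ ≃+* ℂ)} (G : Type) [Group G] [Finite G]
    (P : Sylow p G) (h1 : Odd' p S G) (h2 : Odd' p S (NS P))
    (H : ∀ j, 2 ^ j ≤ Nat.card G → ∀ Q : Sylow p (WrN j G), ∀ c,
      (2 : ℤ) ∣ nf R S (WrN j G) c - nf R S (NS Q) c) (c : (ZMod p)ˣ ⧸ R) :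
    nf R S G c = nf R S (NS P) c := by
  have hG : 0 < Nat.card G := Nat.card_pos
  set a := Nat.log 2 (Nat.card G) with ha
  have h3 : ∀ j ≤ a, 2 ^ j ≤ Nat.card G := fun j hj =>
    (Nat.pow_le_pow_right (by norm_num) hj).trans (Nat.pow_log_le_self 2 hG.ne')
  have h4 := dvd_of_levels hp2 hR a G P h1 h2 (fun j hj => H j (h3 j hj)) c
  have h5 : Nat.card G < 2 ^ (a + 1) := Nat.lt_pow_succ_log_self (by norm_num) _
  have h6 := nf_le R S G c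
  have h7 := nf_le R S (NS P) c
  have h7' : (Nat.card (NS P) : ℤ) ≤ Nat.card G := by
    exact_mod_cast Subgroup.card_le_card_group _
  have h6' := nf_nonneg R S G c
  have h7'' := nf_nonneg R S (NS P) c
  have h8 : |nf R S G c - nf R S (NS P) c| < 2 ^ (a + 1) := by
    have h9 : (Nat.card G : ℤ) < 2 ^ (a + 1) := by exact_mod_cast h5
    rw [abs_lt]
    constructor <;> linarith
  have h9 := Int.eq_zero_of_abs_lt_dvd h4 h8
  linarith

end Pool.Agent.U152.IN
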